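import Pool.Agent.Y45.PV.Stm

/-!
# Project PV, jobs PV2 and PV3: maximal theories and maximal quotients
-/

set_option autoImplicit false

namespace Pool.Agent.Y572.PV

open Pool.Agent.Y45.PV

abbrev F2 := FreeGroup (Fin 2)

/-- the closure condition for a subgroup of the free group of rank two -/
def Cl (T : Set QI) (M : Subgroup F2) : Prop :=
  ∀ s ∈ T, ∀ f : ℕ → F2, (∀ w ∈ s.1, FreeGroup.lift f w ∈ M) → FreeGroup.lift f s.2 ∈ M

theorem hom_lift {G H : Type} [Group G] [Group H] (φ : G →* H) {ι : Type} (f : ι → G)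
    (w : FreeGroup ι) : φ (FreeGroup.lift f w) = FreeGroup.lift (fun i => φ (f i)) w := by
  have : φ.comp (FreeGroup.lift f) = FreeGroup.lift (fun i => φ (f i)) := by
    ext i; simp
  exact DFunLike.congr_fun this w

theorem satQ_quot (T : Set QI) (M : Subgroup F2) [M.Normal] : SatQ T (F2 ⧸ M) ↔ Cl T M := by
  constructor
  · intro h s hs f hf
    have h1 := h s hs (fun i => QuotientGroup.mk' M (f i)) (fun w hw => by
      rw [← hom_lift (QuotientGroup.mk' M) f w]
      exact (QuotientGroup.eq_one_iff _).2 (hf w hw))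
    rw [← hom_lift (QuotientGroup.mk' M) f] at h1
    exact (QuotientGroup.eq_one_iff _).1 h1
  · intro h s hs g hg
    choose f hf using fun i => QuotientGroup.mk'_surjective M (g i)
    have hgf : g = fun i => QuotientGroup.mk' M (f i) := funext fun i => (hf i).symm
    rw [hgf, ← hom_lift (QuotientGroup.mk' M) f]
    apply (QuotientGroup.eq_one_iff _).2
    apply h s hs f
    intro w hw
    have h1 := hg w hw
    rw [hgf, ← hom_lift (QuotientGroup.mk' M) f] at h1
    exact (QuotientGroup.eq_one_iff _).1 h1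

/-- the commutator of the generators -/
def cw : F2 := FreeGroup.of 0 * FreeGroup.of 1 * (FreeGroup.of 0)⁻¹ * (FreeGroup.of 1)⁻¹

theorem lift_cw {G : Type} [Group G] (x y : G) :
    FreeGroup.lift ![x, y] cw = x * y * x⁻¹ * y⁻¹ := by
  simp [cw]

theorem comm_iff {G : Type} [Group G] (x y : G) : x * y * x⁻¹ * y⁻¹ = 1 ↔ x * y = y * x := by
  rw [mul_inv_eq_one, mul_inv_eq_iff_eq_mul]

theorem cw_mem {M : Subgroup F2} [M.Normal] : cw ∈ M ↔
    (QuotientGroup.mk' M (FreeGroup.of 0)) * QuotientGroup.mk' M (FreeGroup.of 1) =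
      QuotientGroup.mk' M (FreeGroup.of 1) * QuotientGroup.mk' M (FreeGroup.of 0) := by
  rw [← comm_iff, ← map_inv, ← map_inv, ← map_mul, ← map_mul, ← map_mul]
  exact (QuotientGroup.eq_one_iff (N := M) cw).symm

theorem list_chain {α β : Type} (c : Set β) (R : β → α → Prop) (hne : c.Nonempty)
    (hc : ∀ a ∈ c, ∀ b ∈ c, ∃ d ∈ c, (∀ x, R a x → R d x) ∧ ∀ x, R b x → R d x) (L : List α)
    (h : ∀ w ∈ L, ∃ M ∈ c, R M w) : ∃ M ∈ c, ∀ w ∈ L, R M w := by
  induction L with
  | nil =>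
    obtain ⟨M, hM⟩ := hne
    exact ⟨M, hM, by simp⟩
  | cons w L ih =>
    obtain ⟨M1, h1, h2⟩ := ih (fun w hw => h w (by simp [hw]))
    obtain ⟨M2, h3, h4⟩ := h w (by simp)
    obtain ⟨d, hd, h5, h6⟩ := hc M1 h1 M2 h3
    refine ⟨d, hd, fun v hv => ?_⟩
    rcases List.mem_cons.1 hv with rfl | hv
    · exact h6 _ h4
    · exact h5 _ (h2 v hv)

theorem normal_sSup {c : Set (Subgroup F2)} (hne : c.Nonempty) (hd : DirectedOn (· ≤ ·) c)
    (h : ∀ M ∈ c, M.Normal) : (sSup c).Normal := by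
  constructor
  intro n hn g
  rw [Subgroup.mem_sSup_of_directedOn hne hd] at hn ⊢
  obtain ⟨M, hM, hx⟩ := hn
  exact ⟨M, hM, (h M hM).conj_mem n hx g⟩

theorem closure_top (M : Subgroup F2) [M.Normal] :
    Subgroup.closure {QuotientGroup.mk' M (FreeGroup.of 0), QuotientGroup.mk' M (FreeGroup.of 1)} =
      (⊤ : Subgroup (F2 ⧸ M)) := by
  have h1 : Subgroup.closure (Set.range (FreeGroup.of : Fin 2 → F2)) = ⊤ :=
    FreeGroup.closure_range_of (Fin 2)
  have h2 := congrArg (Subgroup.map (QuotientGroup.mk' M)) h1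
  rw [MonoidHom.map_closure, Subgroup.map_top_of_surjective _ (QuotientGroup.mk'_surjective M)] at h2
  rw [← h2]
  congr 1
  ext z
  simp only [Set.mem_insert_iff, Set.mem_singleton_iff, Set.mem_image, Set.mem_range]
  constructor
  · rintro (rfl | rfl)
    · exact ⟨_, ⟨0, rfl⟩, rfl⟩
    · exact ⟨_, ⟨1, rfl⟩, rfl⟩
  · rintro ⟨_, ⟨i, rfl⟩, rfl⟩
    fin_cases i
    · exact Or.inl rfl
    · exact Or.inr rfl

theorem comm_of_closure {G : Type} [Group G] {x y : G} (h : Subgroup.closure {x, y} = ⊤)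
    (hxy : x * y = y * x) : ∀ a b : G, a * b = b * a := by
  have hx : x ∈ Subgroup.center G := by
    rw [Subgroup.mem_center_iff]
    intro g
    have hg : g ∈ Subgroup.closure {x, y} := by rw [h]; trivial
    have hle : Subgroup.closure {x, y} ≤ Subgroup.centralizer {x} := by
      rw [Subgroup.closure_le]
      rintro z (rfl | rfl)
      · rw [SetLike.mem_coe, Subgroup.mem_centralizer_singleton_iff]
      · rw [SetLike.mem_coe, Subgroup.mem_centralizer_singleton_iff]
        exact hxy.symm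
    exact (Subgroup.mem_centralizer_singleton_iff.1 (hle hg))
  have hy : y ∈ Subgroup.center G := by
    rw [Subgroup.mem_center_iff]
    intro g
    have hg : g ∈ Subgroup.closure {x, y} := by rw [h]; trivial
    have hle : Subgroup.closure {x, y} ≤ Subgroup.centralizer {y} := by
      rw [Subgroup.closure_le]
      rintro z (rfl | rfl)
      · rw [SetLike.mem_coe, Subgroup.mem_centralizer_singleton_iff]
        exact hxy
      · rw [SetLike.mem_coe, Subgroup.mem_centralizer_singleton_iff]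
    exact (Subgroup.mem_centralizer_singleton_iff.1 (hle hg))
  intro a b
  have ha : a ∈ Subgroup.center G := by
    have ha' : a ∈ Subgroup.closure {x, y} := by rw [h]; trivial
    refine (?_ : Subgroup.closure {x, y} ≤ Subgroup.center G) ha'
    rw [Subgroup.closure_le]
    rintro z (rfl | rfl)
    · exact hx
    · exact hy
  exact (Subgroup.mem_center_iff.1 ha b).symm

/-- the kernel of `lift ![x, y]` -/
theorem ker_cl {T : Set QI} {G : Type} [Group G] (hG : SatQ T G) (x y : G) :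
    Cl T (FreeGroup.lift ![x, y] : F2 →* G).ker := by
  intro s hs f hf
  rw [MonoidHom.mem_ker, hom_lift]
  apply hG s hs
  intro w hw
  have := hf w hw
  rw [MonoidHom.mem_ker, hom_lift] at this
  exact this

theorem t_PV3 : MaxGStmt := by
  intro T hT
  obtain ⟨G0, _, hG0, x0, y0, hxy0⟩ := hT
  let S : Set (Subgroup F2) := {M | M.Normal ∧ Cl T M ∧ cw ∉ M}
  have hker : (FreeGroup.lift ![x0, y0] : F2 →* G0).ker ∈ S := by
    refine ⟨inferInstance, ker_cl hG0 x0 y0, ?_⟩
    rw [MonoidHom.mem_ker, lift_cw, comm_iff]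
    exact hxy0
  obtain ⟨M, _, hmax⟩ := zorn_le_nonempty₀ S (by
    intro c hcS hc M0 hM0
    have hne : c.Nonempty := ⟨M0, hM0⟩
    have hdir : DirectedOn (· ≤ ·) c := hc.directedOn
    refine ⟨sSup c, ⟨normal_sSup hne hdir fun M hM => (hcS hM).1, ?_, ?_⟩,
      fun z hz => le_sSup hz⟩
    · intro s hs f hf
      have h1 : ∀ w ∈ s.1, ∃ M ∈ c, FreeGroup.lift f w ∈ M := fun w hw =>
        (Subgroup.mem_sSup_of_directedOn hne hdir).1 (hf w hw)
      obtain ⟨M, hM, h2⟩ := list_chain c (fun M w => FreeGroup.lift f w ∈ M) hne (by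
        intro a ha b hb
        obtain ⟨d, hd, h1, h2⟩ := hdir a ha b hb
        exact ⟨d, hd, fun x hx => h1 hx, fun x hx => h2 hx⟩) s.1 h1
      exact (Subgroup.mem_sSup_of_directedOn hne hdir).2 ⟨M, hM, (hcS hM).2.1 s hs f h2⟩
    · intro h
      obtain ⟨M, hM, h2⟩ := (Subgroup.mem_sSup_of_directedOn hne hdir).1 h
      exact (hcS hM).2.2 h2) _ hker
  obtain ⟨hMn, hMc, hMx⟩ := hmax.prop
  have := hMn
  refine ⟨F2 ⧸ M, inferInstance, (satQ_quot T M).2 hMc,
    ⟨_, _, closure_top M, fun h => hMx (cw_mem.2 h)⟩, ?_⟩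
  intro K hKn hK hKT
  -- the preimage of `K`
  have hM'n : (K.comap (QuotientGroup.mk' M)).Normal := inferInstance
  have hle : M ≤ K.comap (QuotientGroup.mk' M) := by
    intro z hz
    rw [Subgroup.mem_comap]
    have : QuotientGroup.mk' M z = 1 := (QuotientGroup.eq_one_iff z).2 hz
    rw [this]
    exact K.one_mem
  have hcl : Cl T (K.comap (QuotientGroup.mk' M)) := by
    intro s hs f hf
    have h1 := hKT s hs (fun i => QuotientGroup.mk' K (QuotientGroup.mk' M (f i))) (fun w hw => by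
      have h2 := hf w hw
      rw [Subgroup.mem_comap, hom_lift] at h2
      rw [← hom_lift (QuotientGroup.mk' K) (fun i => QuotientGroup.mk' M (f i)) w]
      exact (QuotientGroup.eq_one_iff _).2 h2)
    rw [← hom_lift (QuotientGroup.mk' K) (fun i => QuotientGroup.mk' M (f i))] at h1
    rw [Subgroup.mem_comap, hom_lift]
    exact (QuotientGroup.eq_one_iff _).1 h1
  have hcw : cw ∈ K.comap (QuotientGroup.mk' M) := by
    by_contra hcw
    have h1 : K.comap (QuotientGroup.mk' M) ≤ M := hmax.le_of_ge ⟨hM'n, hcl, hcw⟩ hle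
    apply hK
    rw [eq_bot_iff]
    intro k hk
    obtain ⟨z, rfl⟩ := QuotientGroup.mk'_surjective M k
    rw [Subgroup.mem_bot]
    exact (QuotientGroup.eq_one_iff z).2 (h1 hk)
  have hcl2 : Subgroup.closure {QuotientGroup.mk' K (QuotientGroup.mk' M (FreeGroup.of 0)),
      QuotientGroup.mk' K (QuotientGroup.mk' M (FreeGroup.of 1))} = ⊤ := by
    have h2 := congrArg (Subgroup.map (QuotientGroup.mk' K)) (closure_top M)
    rw [MonoidHom.map_closure,
      Subgroup.map_top_of_surjective _ (QuotientGroup.mk'_surjective K), Set.image_pair] at h2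
    exact h2
  refine comm_of_closure hcl2 ?_
  rw [← comm_iff, ← map_inv, ← map_inv, ← map_mul, ← map_mul, ← map_mul, ← map_inv, ← map_inv,
    ← map_mul, ← map_mul, ← map_mul]
  exact (QuotientGroup.eq_one_iff _).2 hcw

/-! ## Maximal theories -/

/-- the words which vanish in all models -/
def NT (T : Set QI) : Subgroup F2 where
  carrier := {w | ∀ (G : Type) (_ : Group G), SatQ T G → ∀ x y : G,
    FreeGroup.lift ![x, y] w = 1}
  one_mem' := by
    intro G _ _ x y
    exact map_one _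
  mul_mem' := by
    intro a b ha hb G _ hG x y
    rw [map_mul, ha G _ hG x y, hb G _ hG x y, one_mul]
  inv_mem' := by
    intro a ha G _ hG x y
    rw [map_inv, ha G _ hG x y, inv_one]

theorem mem_NT {T : Set QI} {w : F2} : w ∈ NT T ↔ ∀ (G : Type) (_ : Group G), SatQ T G →
    ∀ x y : G, FreeGroup.lift ![x, y] w = 1 := Iff.rfl

instance NT_normal (T : Set QI) : (NT T).Normal := by
  constructor
  intro n hn g
  rw [mem_NT] at hn ⊢
  intro G _ hG x y
  rw [map_mul, map_mul, hn G _ hG x y, mul_one, map_inv, mul_inv_cancel]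

theorem NT_cl (T : Set QI) : Cl T (NT T) := by
  intro s hs f hf
  rw [mem_NT]
  intro G _ hG x y
  exact ker_cl hG x y s hs f (fun w hw => (mem_NT.1 (hf w hw)) G _ hG x y)

theorem NT_mono {T T' : Set QI} (h : T ⊆ T') : NT T ≤ NT T' := by
  intro w hw
  rw [mem_NT] at hw ⊢
  intro G _ hG x y
  exact hw G _ (fun s hs => hG s (h hs)) x y

/-- the property of having a nonabelian model -/
def HasNA (T : Set QI) : Prop := ∃ (G : Type) (_ : Group G), SatQ T G ∧ ∃ x y : G, x * y ≠ y * x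

theorem cw_NT {T : Set QI} (h : HasNA T) : cw ∉ NT T := by
  obtain ⟨G, _, hG, x, y, hxy⟩ := h
  intro hc
  have := (mem_NT.1 hc) G _ hG x y
  rw [lift_cw, comm_iff] at this
  exact hxy this

theorem hasNA_of {T : Set QI} {M : Subgroup F2} (hn : M.Normal) (hc : Cl T M) (hcw : cw ∉ M) :
    HasNA T :=
  ⟨F2 ⧸ M, inferInstance, (satQ_quot T M).2 hc, _, _, fun h => hcw (cw_mem.2 h)⟩

theorem t_PV2 : MaxTStmt := by
  intro T0 hT0
  obtain ⟨T, hT0T, hmax⟩ := zorn_subset_nonempty {T : Set QI | HasNA T} (by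
    intro c hcS hc hne
    have hdirc : DirectedOn (· ⊆ ·) c := hc.directedOn
    refine ⟨⋃₀ c, ?_, fun s hs => Set.subset_sUnion_of_mem hs⟩
    have hne' : (NT '' c).Nonempty := hne.image _
    have hdir : DirectedOn (· ≤ ·) (NT '' c) := by
      rintro _ ⟨a, ha, rfl⟩ _ ⟨b, hb, rfl⟩
      obtain ⟨d, hd, h1, h2⟩ := hdirc a ha b hb
      exact ⟨NT d, ⟨d, hd, rfl⟩, NT_mono h1, NT_mono h2⟩
    refine hasNA_of (M := sSup (NT '' c)) (normal_sSup hne' hdir ?_) ?_ ?_
    · rintro _ ⟨a, _, rfl⟩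
      exact NT_normal a
    · intro s hs f hf
      obtain ⟨T1, hT1, hs1⟩ := hs
      have h1 : ∀ w ∈ s.1, ∃ T' ∈ c, FreeGroup.lift f w ∈ NT T' := fun w hw => by
        obtain ⟨_, ⟨T', hT', rfl⟩, h2⟩ := (Subgroup.mem_sSup_of_directedOn hne' hdir).1 (hf w hw)
        exact ⟨T', hT', h2⟩
      obtain ⟨T2, hT2, h2⟩ := list_chain c (fun T' w => FreeGroup.lift f w ∈ NT T') hne (by
        intro a ha b hb
        obtain ⟨d, hd, h1, h2⟩ := hdirc a ha b hb
        exact ⟨d, hd, fun x hx => NT_mono h1 hx, fun x hx => NT_mono h2 hx⟩) s.1 h1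
      obtain ⟨T3, hT3, h13, h23⟩ := hdirc T1 hT1 T2 hT2
      refine (Subgroup.mem_sSup_of_directedOn hne' hdir).2 ⟨NT T3, ⟨T3, hT3, rfl⟩, ?_⟩
      exact NT_cl T3 s (h13 hs1) f (fun w hw => NT_mono h23 (h2 w hw))
    · intro h
      obtain ⟨_, ⟨T', hT', rfl⟩, h2⟩ := (Subgroup.mem_sSup_of_directedOn hne' hdir).1 h
      exact cw_NT (hcS hT') h2) T0 hT0
  refine ⟨T, hT0T, hmax.prop, ?_⟩
  intro G _ hG hxy
  have h1 : HasNA (Thq G) := ⟨G, inferInstance, fun s hs => hs, hxy⟩
  exact Set.Subset.antisymm (hmax.le_of_ge h1 hG) hG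

end Pool.Agent.Y572.PV
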